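import Pool.Agent.SA32.Plus
import Pool.Agent.SA97.Trees

set_option autoImplicit false

/-! The gadget `G2` of helper32 (for MP_f994de_co): rooted goodness of the spider with one leg of
length two and one leaf, with respect to the tree `S(2,2,1)`. -/

namespace Pool.Agent.SA12

open SimpleGraph Pool.Agent.SA33 Pool.Agent.SA32 Pool.Agent.SA97

/-- Vertices of the gadget. -/
inductive GV (k : ℕ) : Type
  | x : GV k
  | l : Fin (k - 2) → GV k
  | d : Fin (k - 1) → Fin (k - 2) → GV k
  | v : Fin (k - 1) → GV k
  deriving DecidableEq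

/-- Adjacency of the gadget. -/
def gadj {k : ℕ} : GV k → GV k → Prop
  | .x, .l _ => True
  | .l _, .x => True
  | .x, .d _ _ => True
  | .d _ _, .x => True
  | .l i, .l j => i ≠ j
  | .d _ s, .d _ s' => s ≠ s'
  | .v c, .v c' => c ≠ c'
  | .d c _, .v c' => c = c'
  | .v c, .d c' _ => c' = c
  | _, _ => False

/-- The gadget. -/
def gad (k : ℕ) : SimpleGraph (GV k) where
  Adj := gadj
  symm := ⟨by
    rintro (_ | i | ⟨c, s⟩ | c) (_ | j | ⟨c', s'⟩ | c') h
    all_goals first | exact h | exact Ne.symm h⟩
  loopless := ⟨by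
    rintro (_ | i | ⟨c, s⟩ | c) h
    all_goals first | exact h | exact h rfl⟩

instance finGV (k : ℕ) : Finite (GV k) := by
  let f : GV k → Unit ⊕ Fin (k - 2) ⊕ (Fin (k - 1) × Fin (k - 2)) ⊕ Fin (k - 1)
    | .x => .inl ()
    | .l i => .inr (.inl i)
    | .d c s => .inr (.inr (.inl (c, s)))
    | .v c => .inr (.inr (.inr c))
  apply Finite.of_injective f
  rintro (_ | i | ⟨c, s⟩ | c) (_ | j | ⟨c', s'⟩ | c') h
  all_goals simp_all [f]

/-- A clique given by a family is not inside a clique free set. -/
theorem exists_notMem {V : Type*} {G : SimpleGraph V} {n : ℕ} {Q : Set V}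
    (hQ : G.CliqueFreeOn Q n) {ι : Type*} [Fintype ι] (hι : Fintype.card ι = n) (g : ι → V)
    (hg : ∀ i j, i ≠ j → G.Adj (g i) (g j)) : ∃ i, g i ∉ Q := by
  classical
  by_contra hcon
  push Not at hcon
  have hinj : Function.Injective g := by
    intro i j hij
    by_contra hne
    have := hg i j hne
    rw [hij] at this
    exact G.loopless.irrefl _ this
  apply hQ (t := Finset.univ.map ⟨g, hinj⟩)
  · intro y hy
    simp only [Finset.coe_map, Function.Embedding.coeFn_mk, Finset.coe_univ, Set.image_univ,
      Set.mem_range] at hy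
    obtain ⟨i, rfl⟩ := hy
    exact hcon i
  · constructor
    · intro a ha b hb hab
      simp only [Finset.coe_map, Function.Embedding.coeFn_mk, Finset.coe_univ, Set.image_univ,
        Set.mem_range] at ha hb
      obtain ⟨i, rfl⟩ := ha
      obtain ⟨j, rfl⟩ := hb
      exact hg i j (fun h => hab (by rw [h]))
    · rw [Finset.card_map, Finset.card_univ, hι]

/-- The label of a vertex in a clique. -/
def fo {k : ℕ} : GV k → Option (Fin (k - 2))
  | .x => none
  | .l i => some i
  | .d _ s => some s
  | .v _ => none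

theorem fo_ne {k : ℕ} (u w z : GV k) (hz : ∀ c, z ≠ GV.v c) (h1 : gadj u w) (hne : u ≠ w)
    (hu : u = z ∨ gadj z u) (hw : w = z ∨ gadj z w) : fo u ≠ fo w := by
  intro h
  rcases u with _ | a | ⟨c, s⟩ | c <;> rcases w with _ | b | ⟨c', s'⟩ | c'
  · exact hne rfl
  · cases h
  · cases h
  · exact h1
  · cases h
  · exact h1 (Option.some.inj h)
  · exact h1
  · cases h
  · cases h
  · exact h1
  · exact h1 (Option.some.inj h)
  · cases h
  · exact h1
  · cases h
  · cases h
  · have h4 : gadj z (GV.v c) := hu.resolve_left (fun h => hz c h.symm)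
    have h5 : gadj z (GV.v c') := hw.resolve_left (fun h => hz c' h.symm)
    rcases z with _ | a | ⟨c1, s1⟩ | c1
    · exact h4
    · exact h4
    · apply hne
      have h6 : c1 = c := h4
      have h7 : c1 = c' := h5
      rw [← h6, ← h7]
    · exact hz c1 rfl

theorem gad_cliqueFree {k : ℕ} (hk : 3 ≤ k) :
    IsEmpty ((⊤ : SimpleGraph (Fin k)) ↪g gad k) := by
  classical
  constructor
  intro e
  have hadj : ∀ i j, i ≠ j → gadj (e i) (e j) := fun i j hij => e.map_adj_iff.2 hij
  by_cases hv : ∀ i, ∃ c, e i = GV.v c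
  · choose g hg using hv
    have hinj : Function.Injective g := by
      intro i j hij
      apply e.injective
      rw [hg, hg, hij]
    have := Fintype.card_le_of_injective g hinj
    simp only [Fintype.card_fin] at this
    omega
  · push Not at hv
    obtain ⟨i0, hi0⟩ := hv
    have hor : ∀ i, e i = e i0 ∨ gadj (e i0) (e i) := by
      intro i
      by_cases h : i = i0
      · exact Or.inl (by rw [h])
      · exact Or.inr (hadj i0 i (Ne.symm h))
    have hinj : Function.Injective (fun i => fo (e i)) := by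
      intro i j hij
      by_contra hne
      exact fo_ne (e i) (e j) (e i0) hi0 (hadj i j hne) (fun h => hne (e.injective h))
        (hor i) (hor j) hij
    have := Fintype.card_le_of_injective _ hinj
    simp only [Fintype.card_fin, Fintype.card_option] at this
    omega

theorem gad_rooted {k : ℕ} (hk : 3 ≤ k) (Q : Set (GV k)) (hx : GV.x ∈ Q)
    (hQ : (gad k).CliqueFreeOn Q (k - 1)) :
    ∃ φ : tree 4 [0, 0, 0, 2] ↪g gad k, φ 0 = GV.x ∧ ∀ a, a ≠ 0 → φ a ∉ Q := by
  classical
  have hcard : Fintype.card (Option (Fin (k - 2))) = k - 1 := by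
    rw [Fintype.card_option, Fintype.card_fin]; omega
  obtain ⟨i, hi⟩ : ∃ i, (GV.l i : GV k) ∉ Q := by
    obtain ⟨o, ho⟩ := exists_notMem hQ hcard
      (fun o => match o with | none => (GV.x : GV k) | some i => GV.l i) (by
        rintro (_ | i) (_ | j) hij
        · exact absurd rfl hij
        · exact trivial
        · exact trivial
        · exact fun h => hij (by rw [h]))
    rcases o with _ | i
    · exact absurd hx ho
    · exact ⟨i, ho⟩
  obtain ⟨c, hc⟩ : ∃ c, (GV.v c : GV k) ∉ Q :=
    exists_notMem hQ (Fintype.card_fin _) (fun c => (GV.v c : GV k)) (fun i j hij => hij)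
  obtain ⟨s, hs⟩ : ∃ s, (GV.d c s : GV k) ∉ Q := by
    obtain ⟨o, ho⟩ := exists_notMem hQ hcard
      (fun o => match o with | none => (GV.x : GV k) | some i => GV.d c i) (by
        rintro (_ | i) (_ | j) hij
        · exact absurd rfl hij
        · exact trivial
        · exact trivial
        · exact fun h => hij (by rw [h]))
    rcases o with _ | i
    · exact absurd hx ho
    · exact ⟨i, ho⟩
  obtain ⟨φ, hφ⟩ := embed_of (tree 4 [0, 0, 0, 2]) (gad k)
    ![GV.x, GV.l i, GV.d c s, GV.v c] (by
      intro a b hab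
      have h01 : (tree 4 [0, 0, 0, 2]).Adj 0 1 := by decide
      have h02 : (tree 4 [0, 0, 0, 2]).Adj 0 2 := by decide
      have h03 : ¬ (tree 4 [0, 0, 0, 2]).Adj 0 3 := by decide
      have h12 : ¬ (tree 4 [0, 0, 0, 2]).Adj 1 2 := by decide
      have h13 : ¬ (tree 4 [0, 0, 0, 2]).Adj 1 3 := by decide
      have h23 : (tree 4 [0, 0, 0, 2]).Adj 2 3 := by decide
      fin_cases a <;> fin_cases b <;> first
        | exact absurd hab (by decide)
        | exact ⟨fun _ => by assumption, fun _ => trivial⟩
        | exact ⟨fun h => h.elim, fun h => absurd h (by assumption)⟩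
        | exact ⟨fun _ => by assumption, fun _ => rfl⟩) (by
      intro a b hab
      fin_cases a <;> fin_cases b <;> first
        | exact absurd hab (by decide)
        | exact fun h => by cases h)
  refine ⟨φ, hφ 0, ?_⟩
  intro a ha
  rw [hφ]
  fin_cases a
  · exact absurd rfl ha
  · exact hi
  · exact hs
  · exact hc

/-- The type of a vertex. -/
def ty {k : ℕ} : GV k → Fin 4
  | .x => 0
  | .l _ => 1
  | .d _ _ => 2
  | .v _ => 3

/-- What the types say about the adjacencies of a pair. -/
def okPair (a b : Fin 4) (adj : Bool) : Bool :=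
  match a, b with
  | 0, 0 => false
  | 0, 1 => adj
  | 1, 0 => adj
  | 0, 2 => adj
  | 2, 0 => adj
  | 0, 3 => !adj
  | 3, 0 => !adj
  | 1, 1 => adj
  | 3, 3 => adj
  | 1, 2 => !adj
  | 2, 1 => !adj
  | 1, 3 => !adj
  | 3, 1 => !adj
  | _, _ => true

/-- Nonadjacency is transitive on the vertices `d`. -/
def okTriple (a b c : Fin 4) (ab bc ac : Bool) : Bool :=
  !(a == 2 && b == 2 && c == 2 && !ab && !bc && ac)

/-- All conditions, on the tree `S(2,2,1)`. -/
def okAll (t : Fin 6 → Fin 4) : Bool :=
  decide (∀ a b : Fin 6, a < b → okPair (t a) (t b) (padj [0, 0, 0, 0, 1, 2] a b) = true) &&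
  decide (∀ a b c : Fin 6, a ≠ b → b ≠ c → a ≠ c →
    okTriple (t a) (t b) (t c) (padj [0, 0, 0, 0, 1, 2] a b) (padj [0, 0, 0, 0, 1, 2] b c)
      (padj [0, 0, 0, 0, 1, 2] a c) = true)

theorem okAll_false : ∀ a b c d e f : Fin 4, okAll ![a, b, c, d, e, f] = false := by
  decide +kernel

theorem okPair_gv {k : ℕ} (u w : GV k) (r : Bool) (hne : u ≠ w) (h : r = true ↔ gadj u w) :
    okPair (ty u) (ty w) r = true := by
  have hn : ¬ gadj u w → r = false := fun hh => by
    rw [← Bool.not_eq_true]
    exact fun h' => hh (h.1 h')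
  rcases u with _ | i | ⟨c, s⟩ | c <;> rcases w with _ | j | ⟨c', s'⟩ | c'
  · exact absurd rfl hne
  · exact h.2 trivial
  · exact h.2 trivial
  · rw [hn (fun h => h)]; rfl
  · exact h.2 trivial
  · exact h.2 (fun h => hne (by rw [h]))
  · rw [hn (fun h => h)]; rfl
  · rw [hn (fun h => h)]; rfl
  · exact h.2 trivial
  · rw [hn (fun h => h)]; rfl
  · rfl
  · rfl
  · rw [hn (fun h => h)]; rfl
  · rw [hn (fun h => h)]; rfl
  · rfl
  · exact h.2 (fun h => hne (by rw [h]))

theorem okTriple_gv {k : ℕ} (u w z : GV k) (r1 r2 r3 : Bool) (h1 : r1 = true ↔ gadj u w)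
    (h2 : r2 = true ↔ gadj w z) (h3 : r3 = true ↔ gadj u z) :
    okTriple (ty u) (ty w) (ty z) r1 r2 r3 = true := by
  rcases u with _ | i | ⟨c1, s1⟩ | c1
  · rfl
  · rfl
  · rcases w with _ | i | ⟨c2, s2⟩ | c2
    · rfl
    · rfl
    · rcases z with _ | i | ⟨c3, s3⟩ | c3
      · rfl
      · rfl
      · have k1 : r1 = false → s1 = s2 := by
          intro g
          by_contra hh
          have := h1.2 hh
          rw [g] at this
          exact absurd this (by decide)
        have k2 : r2 = false → s2 = s3 := by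
          intro g
          by_contra hh
          have := h2.2 hh
          rw [g] at this
          exact absurd this (by decide)
        cases r1 with
        | true => rfl
        | false =>
          cases r2 with
          | true => rfl
          | false =>
            cases r3 with
            | false => rfl
            | true => exact absurd ((k1 rfl).trans (k2 rfl)) (h3.1 rfl)
      · rfl
    · rfl
  · rfl

theorem gad_free (k : ℕ) : IsEmpty (tree 6 [0, 0, 0, 0, 1, 2] ↪g gad k) := by
  classical
  constructor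
  intro e
  have hadj : ∀ a b : Fin 6, padj [0, 0, 0, 0, 1, 2] a b = true ↔ gadj (e a) (e b) :=
    fun a b => (e.map_adj_iff (v := a) (w := b)).symm
  have hne : ∀ a b, a ≠ b → e a ≠ e b := fun a b h h' => h (e.injective h')
  have h1 : okAll (fun a => ty (e a)) = true := by
    unfold okAll
    rw [Bool.and_eq_true, decide_eq_true_eq, decide_eq_true_eq]
    exact ⟨fun a b hab => okPair_gv _ _ _ (hne a b (ne_of_lt hab)) (hadj a b),
      fun a b c _ _ _ => okTriple_gv _ _ _ _ _ _ (hadj a b) (hadj b c) (hadj a c)⟩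
  have h2 := okAll_false (ty (e 0)) (ty (e 1)) (ty (e 2)) (ty (e 3)) (ty (e 4)) (ty (e 5))
  have h3 : (![ty (e 0), ty (e 1), ty (e 2), ty (e 3), ty (e 4), ty (e 5)] : Fin 6 → Fin 4) =
      fun a => ty (e a) := by
    funext a
    fin_cases a <;> rfl
  rw [h3, h1] at h2
  exact absurd h2 (by decide)

/-- The spider with one leg of length two and one leaf, rooted at its centre, is rooted-good for
`S(2,2,1)`. -/
theorem rootGood_S221 {k : ℕ} (hk : 3 ≤ k) :
    RootGood (tree 6 [0, 0, 0, 0, 1, 2]) k (tree 4 [0, 0, 0, 2]) 0 :=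
  rootGood_of ⟨gad_free k, gad_cliqueFree hk⟩ GV.x (fun Q hx hQ => gad_rooted hk Q hx hQ)

end Pool.Agent.SA12
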